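import Pool.Agent.KS6_13.SH.Upper

set_option autoImplicit false
set_option linter.all false

namespace Pool.Agent.KS6_13.SH

open Pool.Agent.Helper599.Core Pool.Agent.Helper599.Source
open Pool.Agent.Results.MP_732884_lc.ShuffleInclusion

section main
variable {Q : Type} [Finite Q] (N : Sys Q Bool) {k : ℕ} (e : Lt Q ≃ Fin k)

def sg : SignType → Fin 3
  | .zero => 0
  | .pos => 1
  | .neg => 2

theorem upd_sg (d : SignType) (n : ℕ) : upd (sg d) n = ((n : ℤ) + (d : ℤ)).toNat := by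
  cases d <;> simp [upd, sg] <;> omega

variable {m : ℕ} (E : (Option Bool × S2 Q N.B N.l) ≃ Fin m)

noncomputable def TT (x : Fin m × Fin k × Bool) : Fin m × Fin m × Fin 3 :=
  (E ((dfa e).step (E.symm x.1).1 x.2.1, (E.symm x.1).2),
    E ((E.symm x.1).1, (tr N (E.symm x.1).2 (some (e.symm x.2.1)) x.2.2).1),
    sg (tr N (E.symm x.1).2 (some (e.symm x.2.1)) x.2.2).2)

def cf (d : Option Bool) (c : S2 Q N.B N.l × ℕ) : Fin m × ℕ := (E (d, c.1), c.2)

theorem two_eq (d : Option Bool) (c : S2 Q N.B N.l × ℕ) (a : Fin k) :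
    two (TT N e E) (cf N E d c) a =
      [cf N E ((dfa e).step d a) c, cf N E d (nc N c (some (e.symm a)))] := by
  unfold two TT cf nc
  simp only [Equiv.symm_apply_apply, upd_sg]

theorem cf_surj (y : Fin m × ℕ) : ∃ d c, y = cf N E d c := by
  refine ⟨(E.symm y.1).1, ((E.symm y.1).2, y.2), ?_⟩
  unfold cf
  simp

theorem shuf_nil {A : Type} {u v : List A} (h : Shuf u v []) : u = [] ∧ v = [] := by
  cases h
  exact ⟨rfl, rfl⟩

theorem shuf_cons {A : Type} {u v w : List A} {a : A} (h : Shuf u v (a :: w)) :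
    (∃ u', u = a :: u' ∧ Shuf u' v w) ∨ ∃ v', v = a :: v' ∧ Shuf u v' w := by
  cases h with
  | left _ h => exact Or.inl ⟨_, rfl, h⟩
  | right _ h => exact Or.inr ⟨_, rfl, h⟩

theorem fold_iff (w : List (Fin k)) : ∀ (L : List (Fin m × ℕ)) (x : Fin m × ℕ),
    x ∈ w.foldl (cstep (TT N e E)) L ↔ ∃ d c, cf N E d c ∈ L ∧ ∃ u v, Shuf u v w ∧
      x = cf N E ((dfa e).evalFrom d u) (rn N c (v.map e.symm)) := by
  induction w with
  | nil =>
    intro L x
    constructor
    · intro h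
      obtain ⟨d, c, rfl⟩ := cf_surj N E x
      exact ⟨d, c, h, [], [], Shuf.nil, rfl⟩
    · rintro ⟨d, c, h, u, v, h1, h2⟩
      obtain ⟨rfl, rfl⟩ := shuf_nil h1
      rw [h2]
      exact h
  | cons a w ih =>
    intro L x
    rw [List.foldl_cons, ih]
    constructor
    · rintro ⟨d, c, h, u, v, h1, h2⟩
      obtain ⟨y, hy, h3⟩ := List.mem_flatMap.1 h
      obtain ⟨d', c', rfl⟩ := cf_surj N E y
      rw [two_eq] at h3
      simp only [List.mem_cons, List.not_mem_nil, or_false] at h3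
      have inj : ∀ {d₁ c₁ d₂ c₂}, cf N E d₁ c₁ = cf N E d₂ c₂ → d₁ = d₂ ∧ c₁ = c₂ := by
        intro d₁ c₁ d₂ c₂ h
        unfold cf at h
        have h4 := (Prod.mk.inj h)
        have h5 := Prod.mk.inj (E.injective h4.1)
        exact ⟨h5.1, Prod.ext h5.2 h4.2⟩
      rcases h3 with h3 | h3
      · obtain ⟨rfl, rfl⟩ := inj h3
        exact ⟨d', c, hy, a :: u, v, Shuf.left a h1, by rw [DFA.evalFrom_cons]; exact h2⟩
      · obtain ⟨rfl, rfl⟩ := inj h3
        refine ⟨d, c', hy, u, a :: v, Shuf.right a h1, ?_⟩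
        rw [List.map_cons, rn_cons]
        exact h2
    · rintro ⟨d, c, h, u, v, h1, h2⟩
      rcases shuf_cons h1 with ⟨u', rfl, h3⟩ | ⟨v', rfl, h3⟩
      · refine ⟨(dfa e).step d a, c, List.mem_flatMap.2 ⟨_, h, ?_⟩, u', v, h3, ?_⟩
        · rw [two_eq]
          simp
        · rw [DFA.evalFrom_cons] at h2
          exact h2
      · refine ⟨d, nc N c (some (e.symm a)), List.mem_flatMap.2 ⟨_, h, ?_⟩, u, v', h3, ?_⟩
        · rw [two_eq]
          simp
        · rw [List.map_cons, rn_cons] at h2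
          exact h2

open Classical in
noncomputable def ac (i : Fin m) : Bool :=
  decide ((E.symm i).1 ≠ none ∧ (E.symm i).2 = .acc)

open Classical in
theorem ac_iff (i : Fin m) : ac N E i = true ↔ (E.symm i).1 ≠ none ∧ (E.symm i).2 = .acc := by
  unfold ac
  rw [decide_eq_true_iff]

theorem mem_shuffle_iff (w : List (Fin k)) : w ∈ shuffle (lang1 e) (mach N e).lang ↔
    ∃ x ∈ cfgs (TT N e E) (E (some false, .skip)) w, ac N E x.1 = true := by
  have h0 : [((E (some false, S2.skip) : Fin m), 0)] = [cf N E (some false) (.skip, 0)] := rfl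
  constructor
  · rintro ⟨u, hu, v, hv, h⟩
    rw [mem_wordShuffle] at h
    rw [mem_lang] at hv
    refine ⟨cf N E ((dfa e).evalFrom (some false) u) (rn N (.skip, 0) (v.map e.symm)), ?_, ?_⟩
    · unfold cfgs
      rw [fold_iff, h0]
      exact ⟨_, _, List.mem_singleton.2 rfl, u, v, h, rfl⟩
    · rw [ac_iff]
      unfold cf
      simp only [Equiv.symm_apply_apply]
      exact ⟨(dfa_some e u false).2 hu, hv⟩
  · rintro ⟨x, hx, h⟩
    unfold cfgs at hx
    rw [fold_iff, h0] at hx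
    obtain ⟨d, c, h1, u, v, h2, rfl⟩ := hx
    rw [ac_iff] at h
    unfold cf at h
    simp only [Equiv.symm_apply_apply] at h
    have h3 := List.mem_singleton.1 h1
    unfold cf at h3
    have h4 := Prod.mk.inj h3
    have h5 := Prod.mk.inj (E.injective h4.1)
    have h6 : c = (.skip, 0) := Prod.ext h5.2 h4.2
    rw [h5.1, h6] at h
    refine ⟨u, (dfa_some e u false).1 h.1, v, ?_, mem_wordShuffle.2 h2⟩
    rw [mem_lang]
    exact h.2

theorem not_subset_re : REPred fun c : FACode k =>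
    ¬ faLang c ⊆ shuffle (lang1 e) (mach N e).lang := by
  obtain ⟨m, ⟨E⟩⟩ := Finite.exists_equiv_fin (Option Bool × S2 Q N.B N.l)
  refine (re_test (TT N e E) (ac N E) (E (some false, .skip))).of_eq fun c => ?_
  constructor
  · rintro ⟨ts, hts⟩ hsub
    unfold test at hts
    rw [Bool.and_eq_true, fok_iff, rej_iff] at hts
    obtain ⟨⟨t, ht, h1⟩, h2⟩ := hts
    have h3 : (ts.map fun t => t.2.1) ∈ faLang c := ⟨t, ht, (path_iff c _ _ _).2 ⟨ts, rfl, h1⟩⟩
    obtain ⟨x, hx, h4⟩ := (mem_shuffle_iff N e E _).1 (hsub h3)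
    rw [h2 x hx] at h4
    cases h4
  · intro h
    obtain ⟨w, ⟨t, ht, h1⟩, h2⟩ := Set.not_subset.1 h
    obtain ⟨ts, rfl, h3⟩ := (path_iff c _ _ _).1 h1
    refine ⟨ts, ?_⟩
    unfold test
    rw [Bool.and_eq_true, fok_iff, rej_iff]
    refine ⟨⟨t, ht, h3⟩, fun x hx => ?_⟩
    by_contra h4
    exact h2 ((mem_shuffle_iff N e E _).2 ⟨x, hx, by simpa using h4⟩)

end main

theorem final : ∃ (k : ℕ) (L₁ : Language (Fin k)) (M : DCM (Fin k)),
    L₁.IsRegular ∧ M.OneReversal ∧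
    REPred (fun c : FACode k => ¬ faLang c ⊆ shuffle L₁ M.lang) ∧
    ∀ p : ℕ → Prop, REPred p → ∃ f : ℕ → FACode k, Computable f ∧
      (∀ n, Deterministic (f n)) ∧ ∀ n, p n ↔ ¬ faLang (f n) ⊆ shuffle L₁ M.lang := by
  classical
  obtain ⟨Q, hQ, N, q0, g, hg, hu⟩ := exists_sys'
  let _ : Fintype Q := Fintype.ofFinite Q
  let _ : Fintype (Lt Q) := Fintype.ofFinite _
  let e : Lt Q ≃ Fin (Fintype.card (Lt Q)) := Fintype.equivFin _
  refine ⟨_, lang1 e, mach N e, lang1_regular e, oneReversal N e, not_subset_re N e, ?_⟩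
  intro p hp
  obtain ⟨f, hf, hfp⟩ := re_to_u hp
  refine ⟨fun n => code e q0 (g (f n)), ((code_computable e q0).comp hg).comp hf,
    fun n => code_deterministic e q0 _, fun n => ?_⟩
  rw [main e q0 N (g (f n)), not_not, hu, hfp]

end Pool.Agent.KS6_13.SH
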