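import Pool.Agent.KS6_13.SH.Source

set_option autoImplicit false
set_option linter.all false

namespace Pool.Agent.KS6_13.SH

open Pool.Agent.Helper599.Core
open Pool.Agent.Results.MP_732884_lc.ShuffleInclusion

/-! ### Computability -/

section upper
variable {k m : ℕ}

def upd (d : Fin 3) (n : ℕ) : ℕ := if d = 0 then n else if d = 1 then n + 1 else n - 1

theorem upd_primrec : Primrec₂ upd := by
  refine Primrec.ite (Primrec.eq.comp Primrec.fst (Primrec.const 0)) Primrec.snd
    (Primrec.ite (Primrec.eq.comp Primrec.fst (Primrec.const 1))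
      (Primrec.succ.comp Primrec.snd) (Primrec.pred.comp Primrec.snd))

variable (T : Fin m × Fin k × Bool → Fin m × Fin m × Fin 3) (acc : Fin m → Bool)

def two (c : Fin m × ℕ) (a : Fin k) : List (Fin m × ℕ) :=
  [((T (c.1, a, decide (c.2 = 0))).1, c.2),
    ((T (c.1, a, decide (c.2 = 0))).2.1, upd (T (c.1, a, decide (c.2 = 0))).2.2 c.2)]

theorem two_primrec : Primrec₂ (two T) := by
  have hT : Primrec T := Primrec.dom_finite T
  have h1 : Primrec fun p : (Fin m × ℕ) × Fin k => T (p.1.1, p.2, decide (p.1.2 = 0)) :=
    hT.comp (Primrec.pair (Primrec.fst.comp Primrec.fst) (Primrec.pair Primrec.snd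
      (Primrec.eq.comp (Primrec.snd.comp Primrec.fst) (Primrec.const 0)).decide))
  have h2 : Primrec fun p : (Fin m × ℕ) × Fin k =>
      ((T (p.1.1, p.2, decide (p.1.2 = 0))).1, p.1.2) :=
    Primrec.pair (Primrec.fst.comp h1) (Primrec.snd.comp Primrec.fst)
  have h3 : Primrec fun p : (Fin m × ℕ) × Fin k =>
      ((T (p.1.1, p.2, decide (p.1.2 = 0))).2.1,
        upd (T (p.1.1, p.2, decide (p.1.2 = 0))).2.2 p.1.2) :=
    Primrec.pair (Primrec.fst.comp (Primrec.snd.comp h1))
      (upd_primrec.comp (Primrec.snd.comp (Primrec.snd.comp h1)) (Primrec.snd.comp Primrec.fst))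
  exact (Primrec.list_cons.comp h2 (Primrec.list_cons.comp h3 (Primrec.const [])))

def cstep (L : List (Fin m × ℕ)) (a : Fin k) : List (Fin m × ℕ) := L.flatMap fun c => two T c a

theorem cstep_primrec : Primrec₂ (cstep T) := by
  refine Primrec.list_flatMap Primrec.fst ?_
  exact ((two_primrec T).comp Primrec.snd (Primrec.snd.comp Primrec.fst))

def cfgs (s : Fin m) (w : List (Fin k)) : List (Fin m × ℕ) := w.foldl (cstep T) [(s, 0)]

theorem cfgs_primrec (s : Fin m) : Primrec (cfgs T s) := by
  refine Primrec.list_foldl (h := fun (_ : List (Fin k)) (p : List (Fin m × ℕ) × Fin k) =>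
    cstep T p.1 p.2) Primrec.id (Primrec.const _) ?_
  exact (cstep_primrec T).comp (Primrec.fst.comp Primrec.snd) (Primrec.snd.comp Primrec.snd)

def rej (L : List (Fin m × ℕ)) : Bool := L.foldl (fun b x => b && !(acc x.1)) true

theorem rej_aux (L : List (Fin m × ℕ)) (b : Bool) :
    L.foldl (fun b x => b && !(acc x.1)) b = true ↔ b = true ∧ ∀ x ∈ L, acc x.1 = false := by
  induction L generalizing b with
  | nil => simp
  | cons x L ih =>
    rw [List.foldl_cons, ih]
    simp [and_assoc]

theorem rej_iff (L : List (Fin m × ℕ)) : rej acc L = true ↔ ∀ x ∈ L, acc x.1 = false := by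
  unfold rej
  rw [rej_aux]
  simp

theorem rej_primrec : Primrec (rej acc : List (Fin m × ℕ) → Bool) := by
  have ha : Primrec acc := Primrec.dom_finite acc
  refine Primrec.list_foldl (h := fun (_ : List (Fin m × ℕ)) (p : Bool × (Fin m × ℕ)) =>
    p.1 && !(acc p.2.1)) Primrec.id (Primrec.const _) ?_
  exact Primrec.and.comp (Primrec.fst.comp Primrec.snd)
    (Primrec.not.comp (ha.comp (Primrec.fst.comp (Primrec.snd.comp Primrec.snd))))

/-! finite automata -/

def memb {α : Type} [DecidableEq α] (l : List α) (a : α) : Bool := decide (l.idxOf a < l.length)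

theorem memb_iff {α : Type} [DecidableEq α] (l : List α) (a : α) : memb l a = true ↔ a ∈ l := by
  unfold memb
  rw [decide_eq_true_iff, List.idxOf_lt_length_iff]

theorem memb_primrec {α : Type} [DecidableEq α] [Primcodable α] : Primrec₂ (memb (α := α)) := by
  refine (Primrec.nat_lt.comp ?_ ?_).decide
  · exact Primrec.list_idxOf.comp Primrec.snd Primrec.fst
  · exact Primrec.list_length.comp Primrec.fst

def fstep (c : FACode k) (o : Option ℕ) (t : ℕ × Fin k × ℕ) : Option ℕ :=
  o.bind fun s => bif (memb c.2.1 t && decide (t.1 = s)) then some t.2.2 else none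

theorem fstep_primrec : Primrec fun p : FACode k × (Option ℕ × (ℕ × Fin k × ℕ)) =>
    fstep p.1 p.2.1 p.2.2 := by
  refine Primrec.option_bind (Primrec.fst.comp Primrec.snd) ?_
  refine Primrec.cond (Primrec.and.comp (memb_primrec.comp
    (Primrec.fst.comp (Primrec.snd.comp (Primrec.fst.comp Primrec.fst)))
    (Primrec.snd.comp (Primrec.snd.comp Primrec.fst)))
    (Primrec.eq.comp (Primrec.fst.comp (Primrec.snd.comp (Primrec.snd.comp Primrec.fst)))
      Primrec.snd).decide)
    (Primrec.option_some.comp (Primrec.snd.comp (Primrec.snd.comp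
      (Primrec.snd.comp (Primrec.snd.comp Primrec.fst))))) (Primrec.const none)

theorem fold_none (c : FACode k) (ts : List (ℕ × Fin k × ℕ)) :
    ts.foldl (fstep c) none = none := by
  induction ts with
  | nil => rfl
  | cons t ts ih => rw [List.foldl_cons]; exact ih

theorem path_iff (c : FACode k) (w : List (Fin k)) : ∀ s t : ℕ, Path c.2.1 s w t ↔
    ∃ ts : List (ℕ × Fin k × ℕ), ts.map (fun t => t.2.1) = w ∧
      ts.foldl (fstep c) (some s) = some t := by
  induction w with
  | nil =>
    intro s t
    constructor
    · intro h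
      exact ⟨[], rfl, congrArg some h⟩
    · rintro ⟨ts, h1, h2⟩
      have : ts = [] := List.map_eq_nil_iff.1 h1
      subst this
      exact Option.some.inj h2
  | cons a w ih =>
    intro s t
    constructor
    · rintro ⟨s', h1, h2⟩
      obtain ⟨ts, h3, h4⟩ := (ih s' t).1 h2
      refine ⟨(s, a, s') :: ts, by simp [h3], ?_⟩
      rw [List.foldl_cons]
      have : fstep c (some s) (s, a, s') = some s' := by
        simp [fstep, (memb_iff _ _).2 h1]
      rw [this, h4]
    · rintro ⟨ts, h1, h2⟩
      cases ts with
      | nil => simp at h1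
      | cons x ts =>
        rw [List.foldl_cons] at h2
        simp only [List.map_cons, List.cons.injEq] at h1
        by_cases hx : x ∈ c.2.1 ∧ x.1 = s
        · have : fstep c (some s) x = some x.2.2 := by
            simp [fstep, (memb_iff _ _).2 hx.1, hx.2]
          rw [this] at h2
          refine ⟨x.2.2, ?_, (ih _ _).2 ⟨ts, h1.2, h2⟩⟩
          rw [← h1.1, ← hx.2]
          exact hx.1
        · have : fstep c (some s) x = none := by
            have h5 : (memb c.2.1 x && decide (x.1 = s)) = false := by
              rw [Bool.eq_false_iff]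
              intro h
              apply hx
              rw [Bool.and_eq_true, memb_iff, decide_eq_true_iff] at h
              exact h
            simp [fstep, h5]
          rw [this, fold_none] at h2
          cases h2

def fok (c : FACode k) (ts : List (ℕ × Fin k × ℕ)) : Bool :=
  ((ts.foldl (fstep c) (some c.1)).map (memb c.2.2)).getD false

theorem fok_iff (c : FACode k) (ts : List (ℕ × Fin k × ℕ)) : fok c ts = true ↔
    ∃ t ∈ c.2.2, ts.foldl (fstep c) (some c.1) = some t := by
  unfold fok
  cases h : ts.foldl (fstep c) (some c.1) with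
  | none => simp
  | some t => simp [memb_iff]

theorem fok_primrec : Primrec₂ (fok (k := k)) := by
  have h1 : Primrec fun p : FACode k × List (ℕ × Fin k × ℕ) =>
      p.2.foldl (fun s b => fstep p.1 s b) (some p.1.1) := by
    refine Primrec.list_foldl (h := fun (p : FACode k × List (ℕ × Fin k × ℕ))
      (q : Option ℕ × (ℕ × Fin k × ℕ)) => fstep p.1 q.1 q.2) Primrec.snd
      (Primrec.option_some.comp (Primrec.fst.comp Primrec.fst)) ?_
    exact fstep_primrec.comp (Primrec.pair (Primrec.fst.comp Primrec.fst) Primrec.snd)
  have h2 : Primrec fun p : FACode k × List (ℕ × Fin k × ℕ) =>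
      (p.2.foldl (fun s b => fstep p.1 s b) (some p.1.1)).map (memb p.1.2.2) :=
    Primrec.option_map h1 (memb_primrec.comp
      (Primrec.snd.comp (Primrec.snd.comp (Primrec.fst.comp Primrec.fst))) Primrec.snd)
  exact Primrec.option_getD.comp h2 (Primrec.const false)

/-- The words accepted by the finite automaton and rejected by the other device. -/
def test (s : Fin m) (c : FACode k) (ts : List (ℕ × Fin k × ℕ)) : Bool :=
  fok c ts && rej acc (cfgs T s (ts.map fun t => t.2.1))

theorem test_primrec (s : Fin m) : Primrec₂ (test T acc s) := by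
  refine Primrec.and.comp (fok_primrec.comp Primrec.fst Primrec.snd) ((rej_primrec acc).comp
    ((cfgs_primrec T s).comp (Primrec.list_map Primrec.snd ?_)))
  exact Primrec.fst.comp (Primrec.snd.comp Primrec.snd)

theorem re_test (s : Fin m) : REPred fun c : FACode k => ∃ ts, test T acc s c ts = true := by
  have h1 : Primrec₂ fun (c : FACode k) (n : ℕ) =>
      (((Encodable.decode n : Option (List (ℕ × Fin k × ℕ)))).map (test T acc s c)).getD false := by
    refine Primrec.option_getD.comp (Primrec.option_map (Primrec.decode.comp Primrec.snd) ?_)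
      (Primrec.const false)
    exact (test_primrec T acc s).comp (Primrec.fst.comp Primrec.fst) Primrec.snd
  have h2 : Partrec fun c : FACode k => Nat.rfind fun n =>
      Part.some ((((Encodable.decode n : Option (List (ℕ × Fin k × ℕ)))).map
        (test T acc s c)).getD false) :=
    Partrec.rfind (h1.to_comp.partrec₂)
  refine (h2.dom_re).of_eq fun c => ?_
  refine Nat.rfind_dom.trans ?_
  constructor
  · rintro ⟨n, hn, -⟩
    have hn' := Part.mem_some_iff.1 hn
    cases h : (Encodable.decode n : Option (List (ℕ × Fin k × ℕ))) with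
    | none => rw [h] at hn'; simp at hn'
    | some ts =>
      rw [h] at hn'
      exact ⟨ts, by simpa using hn'.symm⟩
  · rintro ⟨ts, hts⟩
    have h3 : true ∈ Part.some ((((Encodable.decode (Encodable.encode ts) :
        Option (List (ℕ × Fin k × ℕ)))).map (test T acc s c)).getD false) := by
      rw [Part.mem_some_iff, Encodable.encodek]
      simp [hts]
    exact ⟨Encodable.encode ts, h3, @fun _ _ => trivial⟩

end upper

end Pool.Agent.KS6_13.SH
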